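import Pool.Agent.W552.Defs

/-!
# Varieties with algebraic even cohomology; products whose algebraic classes are generated by pairs
-/

set_option autoImplicit false

open CategoryTheory AlgebraicGeometry

universe u v

namespace Run7.h152.SP

open Pool.Agent.H914 Pool.Agent.H914.VarClass Pool.Agent.H281R3.HT Pool.Agent.W552

variable {k : Type u} [Field k] {𝒱 : VarClass k} {ops : CycleOps 𝒱}

/-- All classes of even degree on `X` are linear combinations, with coefficients in the coefficient
field of the cohomology, of classes of algebraic cycles. -/
def EvenAlgebraic (W : WeilCohomology.{u, v} ops) (X : 𝒱.Obj) : Prop :=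
  ∀ m, W.gr X (2 * m) ≤ algSpan W X

/-- The algebraic classes on the product of the `Q a` are linear combinations, with coefficients in
the coefficient field of the cohomology, of products of classes which are inverse images of
algebraic classes on factors `Q a` and on products of two factors `Q a × Q b`, with disjoint sets of
factors. -/
def GeneratedByPairs (W : WeilCohomology.{u, v} ops) (n : ℕ) (Q : Fin (n + 1) → Polarized 𝒱) :
    Prop :=
  algSpan W (nest ops n Q).X ≤ matchingSpan W Q

end Run7.h152.SP
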