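import Pool.Agent.Run7.h152.SP.Defs
import Pool.Agent.Run7.h152.SP.EvenDefs

/-!
# Abbreviations
-/

set_option autoImplicit false

open CategoryTheory AlgebraicGeometry

universe u v w

namespace Run7.h152.SP

open Pool.Agent.H914 Pool.Agent.H914.VarClass Pool.Agent.H914.VarClass.Obj
  Pool.Agent.H914.WeilCohomology Pool.Agent.H281R3.HT Pool.Agent.W552

variable {k : Type u} [Field k] {𝒱 : VarClass k} {ops : CycleOps 𝒱}

/-- The hard Lefschetz theorem and the conjecture of Lefschetz type for the divisor of `P`. -/
def LefschetzType (W : WeilCohomology.{u, v} ops) (P : Polarized 𝒱) : Prop :=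
  P.X.IsCyc 1 P.D ∧ HardLefschetz W P.X P.D ∧ LefschetzB W P.X P.D

/-- The highest self-intersection number of the divisor of `P` is positive. -/
def PositiveTop (ops : CycleOps 𝒱) (P : Polarized 𝒱) : Prop :=
  0 < P.X.V.degCycle (divPow ops P.D P.X.dim P.X.V.fundCycle)

/-- The divisor of `P` has codimension one and a positive highest self-intersection number, and
satisfies the hard Lefschetz theorem. -/
def PolarizedHL (ops : CycleOps 𝒱) (W : WeilCohomology.{u, v} ops) (P : Polarized 𝒱) : Prop :=
  P.X.IsCyc 1 P.D ∧ PositiveTop ops P ∧ HardLefschetz W P.X P.D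

/-- The hard Lefschetz theorem and the conjecture of Hodge type for the divisor of `P`. -/
def HodgeTypeHL (W : WeilCohomology.{u, v} ops) (P : Polarized 𝒱) : Prop :=
  P.X.IsCyc 1 P.D ∧ HardLefschetz W P.X P.D ∧ HodgeType W P.X P.D

/-- The conjecture of Hodge type for the product of `P` and `Q`, with the sum of the inverse images
of the divisors. -/
def HodgeTypePair (W : WeilCohomology.{u, v} ops) (P Q : Polarized 𝒱) : Prop :=
  HodgeType W (P.prod ops Q).X (P.prod ops Q).D

/-- The conjecture of Hodge type for the product of any two members of the family `Q`, with the sum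
of the inverse images of the divisors. -/
def HodgeTypePairs (W : WeilCohomology.{u, v} ops) {ι : Type w} (Q : ι → Polarized 𝒱) : Prop :=
  ∀ i j, HodgeTypePair W (Q i) (Q j)

/-- The product of the members of the family `Q` with the indices `a 0, …, a n`. -/
noncomputable def power (ops : CycleOps 𝒱) {ι : Type w} (Q : ι → Polarized 𝒱) (n : ℕ)
    (a : Fin (n + 1) → ι) : Polarized 𝒱 :=
  nest ops n fun s => Q (a s)

/-- The conjecture of Hodge type for `P`, and the equality of homological and numerical equivalence
for every variety which is dominated by `P`. -/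
def StandardBelow (W : WeilCohomology.{u, v} ops) (P : Polarized 𝒱) : Prop :=
  HodgeType W P.X P.D ∧ ∀ V : 𝒱.Obj, Dominates W P.X V → HomEqNum W V

end Run7.h152.SP
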