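import Pool.Agent.H281R3.HT.Defs

/-!
# Specialization of polarized varieties: definition
-/

set_option autoImplicit false

open CategoryTheory AlgebraicGeometry

universe u v u' v'

namespace Run7.h152.SP

open Pool.Agent.H914 Pool.Agent.H914.VarClass Pool.Agent.H914.VarClass.Obj
  Pool.Agent.H914.WeilCohomology Pool.Agent.H281R3.HT

variable {k : Type u} [Field k] {𝒱 : VarClass k} {ops : CycleOps 𝒱}
  {k₀ : Type u'} [Field k₀] {𝒱₀ : VarClass k₀} {ops₀ : CycleOps 𝒱₀}

/-- A homomorphism from the cohomology ring of `X` to the cohomology ring of `Y`, where `X` and `Y` are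
varieties over different fields, for different cohomology theories. -/
abbrev CohomologyMap (W : WeilCohomology.{u, v} ops) (W₀ : WeilCohomology.{u', v'} ops₀)
    (X : 𝒱.Obj) (Y : 𝒱₀.Obj) : Type (max v v') :=
  W.H X →+* W₀.H Y

/-- The homomorphism `s` maps the class of the cycle `z` to the class of the cycle `w`. -/
def MapsClass {W : WeilCohomology.{u, v} ops} {W₀ : WeilCohomology.{u', v'} ops₀}
    {X : 𝒱.Obj} {Y : 𝒱₀.Obj} (s : CohomologyMap W W₀ X Y) (z : X.Cycles) (w : Y.Cycles) : Prop :=
  s (W.cl X z) = W₀.cl Y w

/-- The homomorphism `s` is injective and maps the class of `z` to the class of `sp z`, which has the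
same codimension as `z`. -/
def MapsClasses {W : WeilCohomology.{u, v} ops} {W₀ : WeilCohomology.{u', v'} ops₀}
    {X : 𝒱.Obj} {Y : 𝒱₀.Obj} (s : CohomologyMap W W₀ X Y) (sp : X.Cycles → Y.Cycles) : Prop :=
  Function.Injective s ∧ ∀ j z, X.IsCyc j z → Y.IsCyc j (sp z) ∧ MapsClass s z (sp z)

/-- The polarized variety `P` over `k` *specializes* to the polarized variety `Q` over `k₀`: they have
the same dimension, and there are a map `sp` from the cycles on `P` to the cycles on `Q` which
preserves the codimensions and the degrees of zero-cycles, and an injective homomorphism `s` of the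
cohomology rings which maps the class of `z` to the class of `sp z`, for all cycles `z` of some
codimension, and the class of the divisor of `P` to the class of the divisor of `Q`. For instance `Q` is
the special fibre of a smooth projective family whose generic fibre is `P`, with the specialization of
cycles, and `s` is the isomorphism between the cohomology of the two fibres (smooth and proper base
change). -/
def SpecializesTo (W : WeilCohomology.{u, v} ops) (W₀ : WeilCohomology.{u', v'} ops₀)
    (P : Polarized 𝒱) (Q : Polarized 𝒱₀) : Prop :=
  P.X.dim = Q.X.dim ∧ ∃ (sp : P.X.Cycles → Q.X.Cycles) (s : CohomologyMap W W₀ P.X Q.X),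
    MapsClasses s sp ∧ MapsClass s P.D Q.D ∧
    ∀ z, P.X.IsCyc P.X.dim z → Q.X.V.degCycle (sp z) = P.X.V.degCycle z

end Run7.h152.SP
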