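import Pool.Agent.Run7.h152.SP.EvenDefs
import Pool.Agent.W552.Main

/-!
# Products of varieties such that the even cohomology of the products of two of them is algebraic
-/

set_option autoImplicit false

open CategoryTheory AlgebraicGeometry

universe u v w

namespace Run7.h152.SP

open Pool.Agent.H914 Pool.Agent.H914.VarClass Pool.Agent.H914.VarClass.Obj
  Pool.Agent.H914.WeilCohomology Pool.Agent.H281R3.HT Pool.Agent.W552

variable {k : Type u} [Field k] {𝒱 : VarClass k} {ops : CycleOps 𝒱}
  {W : WeilCohomology.{u, v} ops}

section Move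

variable {X : 𝒱.Obj} {ι : Type*} [DecidableEq ι] {F : ι → W.H X} {d : ι → ℕ}

lemma prod_mem (hF : ∀ a, F a ∈ W.gr X (d a)) (l : List ι) :
    (l.map F).prod ∈ W.gr X (l.map d).sum := by
  induction l with
  | nil => exact W.one_mem X
  | cons a l ih =>
    rw [List.map_cons, List.map_cons, List.prod_cons, List.sum_cons]
    exact W.mul_mem (hF a) ih

lemma move (hF : ∀ a, F a ∈ W.gr X (d a)) {b : ι} (l : List ι) (hb : b ∈ l) :
    ∃ c : W.K, (l.map F).prod = c • (F b * ((l.erase b).map F).prod) := by
  induction l with
  | nil => exact absurd hb List.not_mem_nil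
  | cons a l ih =>
    by_cases hab : a = b
    · subst hab
      refine ⟨1, ?_⟩
      rw [List.erase_cons_head, one_smul, List.map_cons, List.prod_cons]
    · have hb' : b ∈ l := by
        rcases List.mem_cons.1 hb with h | h
        · exact absurd h.symm hab
        · exact h
      obtain ⟨c, hc⟩ := ih hb'
      refine ⟨c * (-1) ^ (d a * d b), ?_⟩
      rw [List.map_cons, List.prod_cons, hc, List.erase_cons_tail (by simpa using hab),
        List.map_cons, List.prod_cons, mul_smul_comm, ← mul_assoc, W.comm (hF a) (hF b),
        smul_mul_assoc, smul_smul, mul_assoc]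

end Move

section Nest

variable {n : ℕ} {P : Fin (n + 1) → Polarized 𝒱}

/-- the products of pull-backs of classes on the factors in the list -/
noncomputable def mono (W : WeilCohomology.{u, v} ops) (P : Fin (n + 1) → Polarized 𝒱)
    (x : ∀ a, W.H (P a).X) (l : List (Fin (n + 1))) : W.H (nest ops n P).X :=
  (l.map fun a => W.map (prj ops n P a) (x a)).prod

/-- the span of the matchings using the set `S` -/
noncomputable def MSpan (W : WeilCohomology.{u, v} ops) (P : Fin (n + 1) → Polarized 𝒱)
    (S : Finset (Fin (n + 1))) : Submodule W.K (W.H (nest ops n P).X) :=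
  Submodule.span W.K {c | IsMatching W P S c}

lemma algSpan_induction {X : 𝒱.Obj} {M N : Submodule W.K (W.H (nest ops n P).X)}
    (φ : W.H X →ₗ[W.K] W.H (nest ops n P).X)
    (h : ∀ j, ∀ x ∈ algClasses W X j, ∀ c ∈ M, φ x * c ∈ N) {x : W.H X}
    (hx : x ∈ algSpan W X) {c : W.H (nest ops n P).X} (hc : c ∈ M) : φ x * c ∈ N := by
  rw [algSpan] at hx
  induction hx using Submodule.span_induction with
  | mem x hx =>
    obtain ⟨j, hj⟩ := Set.mem_iUnion.1 hx
    exact h j x hj c hc
  | zero => rw [map_zero, zero_mul]; exact Submodule.zero_mem _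
  | add x y _ _ hx hy => rw [map_add, add_mul]; exact Submodule.add_mem _ hx hy
  | smul q x _ hx => rw [map_smul, smul_mul_assoc]; exact Submodule.smul_mem _ _ hx

lemma MSpan_induction {M : Submodule W.K (W.H (nest ops n P).X)} {S : Finset (Fin (n + 1))}
    {y : W.H (nest ops n P).X} (h : ∀ c, IsMatching W P S c → y * c ∈ M)
    {c : W.H (nest ops n P).X} (hc : c ∈ MSpan W P S) : y * c ∈ M := by
  rw [MSpan] at hc
  induction hc using Submodule.span_induction with
  | mem c hc => exact h c hc
  | zero => rw [mul_zero]; exact Submodule.zero_mem _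
  | add x y _ _ hx hy => rw [mul_add]; exact Submodule.add_mem _ hx hy
  | smul q x _ hx => rw [mul_smul_comm]; exact Submodule.smul_mem _ _ hx

lemma mono_mem (h1 : ∀ a, EvenAlgebraic W (P a).X)
    (h2 : ∀ a b, EvenAlgebraic W ((P a).X.prod (P b).X)) {d : Fin (n + 1) → ℕ}
    {x : ∀ a, W.H (P a).X} (hx : ∀ a, x a ∈ W.gr (P a).X (d a)) :
    ∀ (N : ℕ) (l : List (Fin (n + 1))), l.length ≤ N → l.Nodup → Even (l.map d).sum →
      mono W P x l ∈ MSpan W P l.toFinset := by
  have hF : ∀ a, W.map (prj ops n P a) (x a) ∈ W.gr (nest ops n P).X (d a) :=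
    fun a => W.map_mem _ (hx a)
  intro N
  induction N with
  | zero =>
    intro l hl _ _
    obtain rfl := List.eq_nil_of_length_eq_zero (Nat.le_zero.1 hl)
    exact Submodule.subset_span IsMatching.one
  | succ N ih =>
    intro l hl hnd heven
    rcases l with _ | ⟨a, l⟩
    · exact Submodule.subset_span IsMatching.one
    rw [List.nodup_cons] at hnd
    rw [List.map_cons, List.sum_cons] at heven
    rw [List.length_cons] at hl
    rw [mono, List.map_cons, List.prod_cons, List.toFinset_cons]
    by_cases ha : Even (d a)
    · have h3 : Even (l.map d).sum := (Nat.even_add.1 heven).1 ha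
      have h4 := ih l (by omega) hnd.2 h3
      obtain ⟨m, hm⟩ := ha
      refine algSpan_induction (W.map (prj ops n P a)).toLinearMap ?_
        (h1 a m (by rw [two_mul, ← hm]; exact hx a)) h4
      intro j y hy c hc
      refine MSpan_induction (fun c hc => Submodule.subset_span ?_) hc
      exact IsMatching.single hc (by rw [List.mem_toFinset]; exact hnd.1) hy
    · have h3 : ¬ Even (l.map d).sum := fun h => ha ((Nat.even_add.1 heven).2 h)
      obtain ⟨b, hb, hdb⟩ : ∃ b ∈ l, ¬ Even (d b) := by
        by_contra hcon
        push Not at hcon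
        apply h3
        clear h3 heven hl hnd ih
        induction l with
        | nil => exact ⟨0, rfl⟩
        | cons c l ih' =>
          rw [List.map_cons, List.sum_cons]
          exact (hcon c List.mem_cons_self).add
            (ih' (fun e he => hcon e (List.mem_cons_of_mem _ he)))
      obtain ⟨c, hc⟩ := move hF l hb
      have hperm : l.Perm (b :: l.erase b) := List.perm_cons_erase hb
      have hsum : (l.map d).sum = d b + ((l.erase b).map d).sum := by
        rw [(hperm.map d).sum_eq, List.map_cons, List.sum_cons]
      have hnd' : (b :: l.erase b).Nodup := hperm.nodup_iff.1 hnd.2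
      rw [List.nodup_cons] at hnd'
      have hlen : (l.erase b).length + 1 = l.length := by
        rw [List.length_erase_of_mem hb]
        have := List.length_pos_of_mem hb
        omega
      have h4 := ih (l.erase b) (by omega) hnd'.2 (by
        rw [hsum] at h3
        by_contra h5
        rw [Nat.not_even_iff_odd] at h5 hdb
        exact h3 (hdb.add_odd h5))
      have hset : insert b (l.erase b).toFinset = l.toFinset := by
        rw [← List.toFinset_cons]
        exact (List.toFinset_eq_of_perm _ _ hperm).symm
      rw [hc, mul_smul_comm, ← mul_assoc, ← hset]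
      apply Submodule.smul_mem
      have h5 : W.map (prj ops n P a) (x a) * W.map (prj ops n P b) (x b) =
          W.map (Obj.lift (prj ops n P a) (prj ops n P b))
            (W.map (fst _ _) (x a) * W.map (snd _ _) (x b)) := by
        rw [map_mul, ← W.map_comp, ← W.map_comp, lift_fst, lift_snd]
      rw [h5]
      have h6 : Even (d a + d b) := by
        rw [Nat.not_even_iff_odd] at ha hdb
        exact ha.add_odd hdb
      obtain ⟨m, hm⟩ := h6
      refine algSpan_induction (W.map (Obj.lift (prj ops n P a) (prj ops n P b))).toLinearMap ?_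
        (h2 a b m (by
          rw [two_mul, ← hm]
          exact W.mul_mem (W.map_mem _ (hx a)) (W.map_mem _ (hx b)))) h4
      intro j y hy c hc
      refine MSpan_induction (fun c hc => Submodule.subset_span ?_) hc
      refine IsMatching.pair hc (fun h => hnd.1 ?_) (by rw [List.mem_toFinset]; exact hnd'.1)
        (fun h => hnd.1 (h ▸ hb)) hy
      exact List.mem_of_mem_erase (List.mem_toFinset.1 h)

/-- the products of homogeneous classes on the factors span the cohomology -/
lemma mono_span (n : ℕ) (P : Fin (n + 1) → Polarized 𝒱) (c : W.H (nest ops n P).X) :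
    c ∈ Submodule.span W.K {c | ∃ (d : Fin (n + 1) → ℕ) (x : ∀ a, W.H (P a).X),
      (∀ a, x a ∈ W.gr (P a).X (d a)) ∧ mono W P x (List.finRange (n + 1)) = c} := by
  induction n with
  | zero =>
    refine gr_induction (W.isInternal _) (p := fun c => c ∈ Submodule.span W.K
      {c | ∃ (d : Fin (0 + 1) → ℕ) (x : ∀ a, W.H (P a).X),
      (∀ a, x a ∈ W.gr (P a).X (d a)) ∧ mono W P x (List.finRange (0 + 1)) = c}) ?_ ?_ c
    · intro i c hc
      refine Submodule.subset_span ⟨fun _ => i, fun a => Fin.cases
        (motive := fun a => W.H (P a).X) c (fun i => i.elim0) a, ?_, ?_⟩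
      · intro a
        refine Fin.cases ?_ (fun i => i.elim0) a
        exact hc
      · rw [mono, List.finRange_succ, List.finRange_zero]
        simp only [List.map_nil, List.map_cons, List.prod_cons, List.prod_nil, mul_one]
        exact W.map_id _ c
    · intro a b ha hb
      exact Submodule.add_mem _ ha hb
  | succ n ih =>
    refine W.kunneth_induction (p := fun c => c ∈ Submodule.span W.K
      {c | ∃ (d : Fin (n + 1 + 1) → ℕ) (x : ∀ a, W.H (P a).X),
      (∀ a, x a ∈ W.gr (P a).X (d a)) ∧ mono W P x (List.finRange (n + 1 + 1)) = c}) ?_ ?_ c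
    · intro a b ha hb
      exact Submodule.add_mem _ ha hb
    · intro i j a ha b hbj
      clear hbj
      have hb := ih (fun i => P i.succ) b
      induction hb using Submodule.span_induction with
      | mem b hb =>
        obtain ⟨d, x, hx, rfl⟩ := hb
        refine Submodule.subset_span ⟨Fin.cases i d, fun a' => Fin.cases
          (motive := fun a => W.H (P a).X) a x a', ?_, ?_⟩
        · intro a'
          refine Fin.cases ?_ (fun i => ?_) a'
          · exact ha
          · exact hx i
        · rw [mono, List.finRange_succ, List.map_cons, List.prod_cons, List.map_map, mono,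
            map_list_prod (W.map (snd (P 0).X (nest ops n fun i => P i.succ).X)), List.map_map]
          congr 1
          congr 1
          apply List.map_congr_left
          intro i _
          exact W.map_comp _ _ _
      | zero => rw [map_zero, mul_zero]; exact Submodule.zero_mem _
      | add x y _ _ hx hy => rw [map_add, mul_add]; exact Submodule.add_mem _ hx hy
      | smul q x _ hx => rw [map_smul, mul_smul_comm]; exact Submodule.smul_mem _ _ hx

/-- All classes of even degree on the product are generated by algebraic classes on the factors and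
on the products of two factors. -/
theorem even_mem_matching (h1 : ∀ a, EvenAlgebraic W (P a).X)
    (h2 : ∀ a b, EvenAlgebraic W ((P a).X.prod (P b).X)) {m : ℕ}
    {c : W.H (nest ops n P).X} (hc : c ∈ W.gr (nest ops n P).X (2 * m)) :
    c ∈ matchingSpan W P := by
  set T := scal (W.isInternal (nest ops n P).X) (fun i => (-1 : W.K) ^ i) with hT
  have key : ∀ c : W.H (nest ops n P).X, ∃ e o, e ∈ matchingSpan W P ∧ T e = e ∧ T o = -o ∧
      c = e + o := by
    intro c
    have h3 := mono_span n P c
    induction h3 using Submodule.span_induction with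
    | mem c hc =>
      obtain ⟨d, x, hx, rfl⟩ := hc
      have hdeg : mono W P x (List.finRange (n + 1)) ∈
          W.gr _ ((List.finRange (n + 1)).map d).sum :=
        prod_mem (fun a => W.map_mem _ (hx a)) _
      by_cases he : Even ((List.finRange (n + 1)).map d).sum
      · refine ⟨_, 0, ?_, ?_, by simp, (add_zero _).symm⟩
        · have h4 := mono_mem h1 h2 hx _ _ le_rfl (List.nodup_finRange _) he
          exact Submodule.span_mono (fun c hc => (⟨(List.finRange (n + 1)).toFinset, hc⟩ :
            ∃ S, IsMatching W P S c)) h4
        · rw [hT, scal_apply _ _ hdeg, he.neg_one_pow, one_smul]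
      · refine ⟨0, _, Submodule.zero_mem _, by simp, ?_, (zero_add _).symm⟩
        rw [Nat.not_even_iff_odd] at he
        rw [hT, scal_apply _ _ hdeg, he.neg_one_pow, neg_one_smul]
    | zero => exact ⟨0, 0, Submodule.zero_mem _, by simp, by simp, by simp⟩
    | add x y _ _ hx hy =>
      obtain ⟨e, o, he, he', ho, rfl⟩ := hx
      obtain ⟨e₁, o₁, he₁, he₁', ho₁, rfl⟩ := hy
      exact ⟨e + e₁, o + o₁, Submodule.add_mem _ he he₁, by rw [map_add, he', he₁'],
        by rw [map_add, ho, ho₁]; abel, by abel⟩
    | smul q x _ hx =>
      obtain ⟨e, o, he, he', ho, rfl⟩ := hx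
      exact ⟨q • e, q • o, Submodule.smul_mem _ _ he, by rw [map_smul, he'],
        by rw [map_smul, ho, smul_neg], by rw [smul_add]⟩
  obtain ⟨e, o, he, he', ho, hceo⟩ := key c
  have h3 : T c = c := by
    rw [hT, scal_apply _ _ hc, (even_two_mul m).neg_one_pow, one_smul]
  have h4 : o = 0 := by
    have h5 := h3
    rw [hceo, map_add, he', ho] at h5
    have h6 : -o = o := add_left_cancel h5
    have h7 : (2 : W.K) • o = 0 := by
      rw [two_smul]
      nth_rewrite 1 [← h6]
      exact neg_add_cancel o
    exact (smul_eq_zero.1 h7).resolve_left two_ne_zero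
  rw [hceo, h4, add_zero]
  exact he

end Nest

end Run7.h152.SP
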