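import Pool.Agent.Run7.h152.SP.Lift
import Pool.Agent.Run7.h152.SP.Even
import Pool.Agent.W552.FrobMain

/-!
# The lifting theorems
-/

set_option autoImplicit false

open CategoryTheory AlgebraicGeometry

universe u v u' v' w

namespace Run7.h152.SP

open Pool.Agent.H914 Pool.Agent.H914.VarClass Pool.Agent.H914.VarClass.Obj
  Pool.Agent.H914.WeilCohomology Pool.Agent.H281R3.HT Pool.Agent.W552

variable {k : Type u} [Field k] {𝒱 : VarClass k} {ops : CycleOps 𝒱}
  {k₀ : Type u'} [Field k₀] {𝒱₀ : VarClass k₀} {ops₀ : CycleOps 𝒱₀}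
  {W : WeilCohomology.{u, v} ops} {W₀ : WeilCohomology.{u', v'} ops₀}

/-- Lifting the conjecture of Hodge type and D, for the varieties dominated by the generic fibre. -/
theorem SpecializesTo.final {P : Polarized 𝒱} {Q : Polarized 𝒱₀} {g : Module.End W.K (W.H P.X)}
    (h : SpecializesTo W W₀ P Q) (hF : Fr W P.X P.D g)
    (hQD : Q.X.IsCyc 1 Q.D) (hQ : HodgeType W₀ Q.X Q.D) :
    HodgeType W P.X P.D ∧ ∀ V : 𝒱.Obj, Dominates W P.X V → HomEqNum W V := by
  have h1 := h.hodgeType hF.hD hQD hQ
  exact ⟨h1, fun V hV => (homEqNum_of_hodge hF h1).image hV⟩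

/-- restriction to the diagonal -/
theorem EvenAlgebraic.of_square {X : 𝒱.Obj} (h : EvenAlgebraic W (X.prod X)) :
    EvenAlgebraic W X := by
  intro m x hx
  have h1 := h m (W.map_mem (fst X X) hx)
  have h2 : W.map (Obj.lift (𝟙 X) (𝟙 X)) (W.map (fst X X) x) = x := by
    rw [← W.map_comp, lift_fst, W.map_id]
  rw [← h2]
  clear h2
  generalize W.map (fst X X) x = y at h1
  rw [algSpan] at h1
  induction h1 using Submodule.span_induction with
  | mem y hy =>
    obtain ⟨j, z, hz, rfl⟩ := Set.mem_iUnion.1 hy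
    refine Submodule.subset_span (Set.mem_iUnion.2 ⟨j, ops.pull (Obj.lift (𝟙 X) (𝟙 X)) z, ?_, ?_⟩)
    · exact ops.pull_mem _ hz
    · exact W.cl_pull _ z
  | zero => rw [map_zero]; exact Submodule.zero_mem _
  | add y z _ _ hy hz => rw [map_add]; exact Submodule.add_mem _ hy hz
  | smul q y _ hy => rw [map_smul]; exact Submodule.smul_mem _ _ hy

/-- All algebraic classes are generated by those on pairs, if the classes of even degree
on the products of two of the varieties are algebraic. -/
theorem GeneratedByPairs.of_even {n : ℕ} {Q : Fin (n + 1) → Polarized 𝒱}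
    (hE : ∀ a b, EvenAlgebraic W ((Q a).X.prod (Q b).X)) : GeneratedByPairs W n Q := by
  refine Submodule.span_le.2 ?_
  intro x hx
  obtain ⟨j, z, hz, rfl⟩ := Set.mem_iUnion.1 hx
  exact even_mem_matching (fun a => (hE a a).of_square) hE (W.cl_mem hz)

/-- The conjecture of Hodge type for products such that the algebraic classes are generated by
those on pairs. -/
theorem GeneratedByPairs.hodge {n : ℕ} {Q : Fin (n + 1) → Polarized 𝒱}
    (h : GeneratedByPairs W n Q)
    (hD : ∀ a, (Q a).X.IsCyc 1 (Q a).D)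
    (hdeg : ∀ a, 0 < (Q a).X.V.degCycle (divPow ops (Q a).D (Q a).X.dim (Q a).X.V.fundCycle))
    (hHL : ∀ a, HardLefschetz W (Q a).X (Q a).D)
    (hB : ∀ a, LefschetzB W (Q a).X (Q a).D)
    (hH2 : ∀ a b, HodgeType W ((Q a).prod ops (Q b)).X ((Q a).prod ops (Q b)).D) :
    HodgeType W (nest ops n Q).X (nest ops n Q).D := by
  have h1 := (hodge_matching hD hHL hB
    (fun a => hodge_of_square (hD a) (hdeg a) (hHL a) (hB a) (hH2 a a)) hH2).1
  exact fun j hj z hz => h1 j hj z hz
    (h (Submodule.subset_span (Set.mem_iUnion.2 ⟨j, z, hz, rfl⟩)))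

end Run7.h152.SP
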