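import Pool.Agent.Run7.h152.SP.Defs
import Pool.Agent.W552.Main
import Pool.Agent.H281R3.HT.EMain

/-!
# The conjectures of Hodge type and D lift from the special fibre
-/

set_option autoImplicit false

open CategoryTheory AlgebraicGeometry

universe u v u' v'

namespace Run7.h152.SP

open Pool.Agent.H914 Pool.Agent.H914.VarClass Pool.Agent.H914.VarClass.Obj
  Pool.Agent.H914.WeilCohomology Pool.Agent.H281R3.HT Pool.Agent.W552

variable {k : Type u} [Field k] {𝒱 : VarClass k} {ops : CycleOps 𝒱}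
  {k₀ : Type u'} [Field k₀] {𝒱₀ : VarClass k₀} {ops₀ : CycleOps 𝒱₀}
  {W : WeilCohomology.{u, v} ops} {W₀ : WeilCohomology.{u', v'} ops₀}
  {P : Polarized 𝒱} {Q : Polarized 𝒱₀}

lemma cl_divPow' {𝒱 : VarClass k} {ops : CycleOps 𝒱} {W : WeilCohomology.{u, v} ops} {X : 𝒱.Obj}
    (D : X.Cycles) (i : ℕ) (z : X.Cycles) :
    W.cl X (divPow ops D i z) = W.cl X D ^ i * W.cl X z := by
  rw [cl_divPow]
  induction i with
  | zero => rw [pow_zero, pow_zero, one_mul]; rfl
  | succ i ih =>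
    rw [pow_succ', Module.End.mul_apply, ih, LinearMap.mulLeft_apply, pow_succ', mul_assoc]

/-- The conjecture of Hodge type lifts from the special fibre. -/
theorem SpecializesTo.hodgeType (h : SpecializesTo W W₀ P Q) (hD : P.X.IsCyc 1 P.D)
    (hQD : Q.X.IsCyc 1 Q.D) (hQ : HodgeType W₀ Q.X Q.D) : HodgeType W P.X P.D := by
  obtain ⟨hdim, sp, s, ⟨hinj, hcl⟩, hdiv, hdeg⟩ := h
  unfold MapsClass at hcl hdiv
  intro j hj z hz hprim hz0
  obtain ⟨hz1, hz2⟩ := hcl j z hz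
  have h1 : ∀ i, s (W.cl P.X (divPow ops P.D i z)) = W₀.cl Q.X (divPow ops₀ Q.D i (sp z)) := by
    intro i
    rw [cl_divPow', cl_divPow', map_mul, map_pow, hdiv, hz2]
  have h2 := hQ j (by rw [← hdim]; exact hj) (sp z) hz1 (by
    rw [← hdim, ← h1, hprim, map_zero]) (by
    intro h0
    rw [← hz2] at h0
    exact hz0 (hinj (h0.trans (map_zero s).symm)))
  set w := ops.mul z (divPow ops P.D (P.X.dim - 2 * j) z) with hw
  have hwm : P.X.IsCyc P.X.dim w := by
    have h3 := ops.mul_mem hz (divPow_mem (ops := ops) hD (P.X.dim - 2 * j) hz)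
    rwa [show j + (j + (P.X.dim - 2 * j)) = P.X.dim by omega] at h3
  set w₀ := ops₀.mul (sp z) (divPow ops₀ Q.D (Q.X.dim - 2 * j) (sp z)) with hw₀
  have hw₀m : Q.X.IsCyc Q.X.dim w₀ := by
    have h3 := ops₀.mul_mem hz1 (divPow_mem (ops := ops₀) hQD (Q.X.dim - 2 * j) hz1)
    rwa [show j + (j + (Q.X.dim - 2 * j)) = Q.X.dim by omega] at h3
  have h3 : W₀.cl Q.X w₀ = W₀.cl Q.X (sp w) := by
    rw [← (hcl _ _ hwm).2, hw, W.cl_mul, map_mul, h1, hz2, hw₀, W₀.cl_mul, hdim]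
  have h4 : (Q.X.V.degCycle w₀ : W₀.K) = (P.X.V.degCycle w : W₀.K) := by
    rw [← W₀.tr_cl hw₀m, h3, W₀.tr_cl (by rw [← hdim]; exact (hcl _ _ hwm).1), hdeg w hwm]
  have h5 : Q.X.V.degCycle w₀ = P.X.V.degCycle w := by exact_mod_cast h4
  rw [← h5]
  exact h2

/-- The conjecture of Lefschetz type and the conjecture of Hodge type imply the conjecture D. -/
theorem homEqNum_of_hodge {X : 𝒱.Obj} {D : X.Cycles} {f : Module.End W.K (W.H X)}
    (F : Fr W X D f) (hH : HodgeType W X D) : HomEqNum W X := by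
  intro j hj z hz hnum
  exact (F.hodge hz (fun hz0 => F.bf_pos hH (AS.of ⟨z, hz, rfl⟩) hz0)).2 hj hnum

/-- Lefschetz operators on the product of finitely many polarized varieties. -/
theorem exists_fr_nest (n : ℕ) (P : Fin (n + 1) → Polarized 𝒱)
    (hD : ∀ a, (P a).X.IsCyc 1 (P a).D) (hHL : ∀ a, HardLefschetz W (P a).X (P a).D)
    (hB : ∀ a, LefschetzB W (P a).X (P a).D) :
    ∃ g, Fr W (nest ops n P).X (nest ops n P).D g := by
  induction n with
  | zero =>
    obtain ⟨f, hf, -⟩ := exists_fr (hD 0) (hHL 0) (hB 0)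
    exact ⟨f, hf⟩
  | succ n ih =>
    obtain ⟨f, hf, -⟩ := exists_fr (hD 0) (hHL 0) (hB 0)
    obtain ⟨g, hg⟩ := ih (fun i => P i.succ) (fun i => hD i.succ) (fun i => hHL i.succ)
      (fun i => hB i.succ)
    exact ⟨_, hf.prod hg⟩

end Run7.h152.SP
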